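import Pool.Agent.Lib.MP_7592f8R.Base

/-! # leaf A: the number of the `k`-sets that contain `T` and are disjoint from `X` -/

set_option autoImplicit false

namespace CrossR
open Finset Cross7592

theorem card_sd {n k : ℕ} (T X : Finset (Fin n)) (hTX : Disjoint T X) (hT : #T ≤ k) :
    #(sd n k T X) = (n - #T - #X).choose (k - #T) := by
  have h1 : #(sd n k T X) = #(powersetCard (k - #T) ((univ : Finset (Fin n)) \ (T ∪ X))) := by
    refine card_bij' (fun F _ => F \ T) (fun G _ => G ∪ T) ?_ ?_ ?_ ?_
    · intro F hF
      rw [mem_sd] at hF
      obtain ⟨h1, h2, h3⟩ := hF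
      rw [mem_powersetCard]
      refine ⟨?_, ?_⟩
      · intro z hz
        rw [mem_sdiff] at hz
        rw [mem_sdiff, mem_union]
        refine ⟨mem_univ _, ?_⟩
        rintro (h | h)
        · exact hz.2 h
        · exact (Finset.disjoint_left.1 h3 hz.1) h
      · rw [card_sdiff_of_subset h2, h1]
    · intro G hG
      rw [mem_powersetCard] at hG
      obtain ⟨h1, h2⟩ := hG
      have hGT : Disjoint G T := by
        rw [Finset.disjoint_left]
        intro z hz hzT
        have := h1 hz
        rw [mem_sdiff, mem_union] at this
        exact this.2 (Or.inl hzT)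
      rw [mem_sd]
      refine ⟨?_, subset_union_right, ?_⟩
      · rw [card_union_of_disjoint hGT, h2]; omega
      · rw [disjoint_union_left]
        refine ⟨?_, hTX⟩
        rw [Finset.disjoint_left]
        intro z hz hzX
        have := h1 hz
        rw [mem_sdiff, mem_union] at this
        exact this.2 (Or.inr hzX)
    · intro F hF
      rw [mem_sd] at hF
      exact sdiff_union_of_subset hF.2.1
    · intro G hG
      rw [mem_powersetCard] at hG
      have hGT : Disjoint G T := by
        rw [Finset.disjoint_left]
        intro z hz hzT
        have := hG.1 hz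
        rw [mem_sdiff, mem_union] at this
        exact this.2 (Or.inl hzT)
      exact union_sdiff_cancel_right hGT
  rw [h1, card_powersetCard, card_sdiff_of_subset (subset_univ _), card_univ, Fintype.card_fin,
    card_union_of_disjoint hTX]
  congr 1
  omega

end CrossR
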