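import Pool.Agent.Lib.MP_7592f8R.Base

/-! # leaf B: systems of distinct representatives -/

set_option autoImplicit false

namespace CrossR
open Finset Cross7592

theorem exists_sdr {n r : ℕ} (hr : 0 < r) (Y : Finset (Fin n)) (E : Fin n → Finset (Fin r))
    (h : ∀ y ∈ Y, #Y ≤ #(E y)) :
    ∃ g : Fin n → Fin r, (∀ y ∈ Y, g y ∈ E y) ∧ Set.InjOn g Y := by
  classical
  have hall : ∀ s : Finset {y // y ∈ Y}, #s ≤ #(s.biUnion fun y => E y.1) := by
    intro s
    rcases s.eq_empty_or_nonempty with hs | ⟨y, hy⟩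
    · rw [hs]
      simp
    · have h1 : #s ≤ #Y := by
        have h2 := Finset.card_le_univ s
        rwa [Fintype.card_coe] at h2
      refine h1.trans ((h y.1 y.2).trans (Finset.card_le_card ?_))
      exact Finset.subset_biUnion_of_mem (fun y : {y // y ∈ Y} => E y.1) hy
  obtain ⟨f, hf1, hf2⟩ := (Finset.all_card_le_biUnion_card_iff_exists_injective
    (fun y : {y // y ∈ Y} => E y.1)).1 hall
  refine ⟨fun y => if hy : y ∈ Y then f ⟨y, hy⟩ else ⟨0, hr⟩, fun y hy => ?_, fun y hy z hz hyz => ?_⟩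
  · show (if hy : y ∈ Y then f ⟨y, hy⟩ else ⟨0, hr⟩) ∈ E y
    rw [dif_pos hy]
    exact hf2 ⟨y, hy⟩
  · have hy' : y ∈ Y := hy
    have hz' : z ∈ Y := hz
    have h1 : (if hy : y ∈ Y then f ⟨y, hy⟩ else ⟨0, hr⟩) = (if hz : z ∈ Y then f ⟨z, hz⟩ else ⟨0, hr⟩) := hyz
    rw [dif_pos hy', dif_pos hz'] at h1
    exact congrArg Subtype.val (hf1 h1)

end CrossR
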