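import Pool.Agent.Lib.MP_7592f8R.Defs

/-!
# MP_7592f8_co: many families (helper97): basic notions
-/

set_option autoImplicit false

namespace CrossR
open Finset Cross7592

variable {n k r : ℕ}

/-- The `k`-sets that contain `T` and are disjoint from `X`. -/
def sd (n k : ℕ) (T X : Finset (Fin n)) : Finset (Finset (Fin n)) :=
  univ.filter fun F => #F = k ∧ T ⊆ F ∧ Disjoint F X

theorem mem_sd {T X F : Finset (Fin n)} : F ∈ sd n k T X ↔ #F = k ∧ T ⊆ F ∧ Disjoint F X := by
  simp [sd]

theorem mem_common {A : Fin r → Finset (Fin n)} {x : Fin n} : x ∈ common A ↔ ∀ i, x ∈ A i := by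
  simp [common]

theorem exists_kset {J : Finset (Fin n)} {y : Fin n} (hJ : #J ≤ k) (hkn : k < n) (hy : y ∉ J) :
    ∃ F : Finset (Fin n), #F = k ∧ J ⊆ F ∧ y ∉ F := by
  have h1 : J ⊆ univ.erase y := fun z hz => by
    rw [mem_erase]; exact ⟨fun h => hy (h ▸ hz), mem_univ _⟩
  have h2 : k ≤ #((univ : Finset (Fin n)).erase y) := by
    rw [card_erase_of_mem (mem_univ _), card_univ, Fintype.card_fin]; omega
  obtain ⟨F, hF1, hF2, hF3⟩ := exists_subsuperset_card_eq h1 hJ h2
  exact ⟨F, hF3, hF1, fun h => by simpa using hF2 h⟩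

end CrossR
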