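import Pool.Agent.Lib.MP_7592f8R.B

/-! # leaf C1: the points that are avoided by few families -/

set_option autoImplicit false

namespace CrossR
open Finset Cross7592

theorem exists_Z {n k r t : ℕ} {L : Finset ℕ} {𝒜 : Fin r → Finset (Finset (Fin n))}
    (h : Adm n k r L 𝒜) (ht : ∀ l ∈ L, t ≤ l) (hr : 0 < r) :
    ∃ Z : Finset (Fin n), t ≤ #Z ∧
      ∀ x ∈ Z, #(univ.filter fun i : Fin r => ∃ F ∈ 𝒜 i, x ∉ F) < n := by
  classical
  obtain ⟨I, hI⟩ : ∃ I : Fin n → Finset (Fin r),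
      I = fun x => univ.filter fun i : Fin r => ∃ F ∈ 𝒜 i, x ∉ F := ⟨_, rfl⟩
  obtain ⟨Y, hY⟩ : ∃ Y : Finset (Fin n), Y = univ.filter fun x => n ≤ #(I x) := ⟨_, rfl⟩
  have hYn : #Y ≤ n := by
    have h1 := card_le_univ Y
    rwa [Fintype.card_fin] at h1
  obtain ⟨g, hg1, hg2⟩ := exists_sdr hr Y I (fun y hy => by
    rw [hY, mem_filter] at hy
    exact hYn.trans hy.2)
  have hA : ∀ i : Fin r, ∃ F ∈ 𝒜 i, ∀ y ∈ Y, g y = i → y ∉ F := by
    intro i
    by_cases hy : ∃ y ∈ Y, g y = i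
    · obtain ⟨y, hy1, hy2⟩ := hy
      have h1 := hg1 y hy1
      rw [hI] at h1
      obtain ⟨-, F, hF, hyF⟩ := mem_filter.1 h1
      subst hy2
      refine ⟨F, hF, fun z hz hzi => ?_⟩
      have h2 : z = y := hg2 hz hy1 hzi
      rw [h2]
      exact hyF
    · obtain ⟨F, hF⟩ := h.ne i
      exact ⟨F, hF, fun y hy1 hy2 => absurd ⟨y, hy1, hy2⟩ hy⟩
  choose A hA1 hA2 using hA
  refine ⟨univ.filter fun x => #(I x) < n, ?_, fun x hx => ?_⟩
  · have h1 := ht _ (h.cross A hA1)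
    refine h1.trans (card_le_card fun x hx => ?_)
    rw [mem_filter]
    refine ⟨mem_univ _, ?_⟩
    by_contra hc
    have hxY : x ∈ Y := by
      rw [hY, mem_filter]
      exact ⟨mem_univ _, not_lt.1 hc⟩
    exact hA2 (g x) x hxY rfl (mem_common.1 hx (g x))
  · have h1 := (mem_filter.1 hx).2
    rw [hI] at h1
    exact h1

end CrossR
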