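import Pool.Agent.Lib.MP_7592f8R.A
import Pool.Agent.Lib.MP_7592f8R.C1

/-! # leaf C2: more than `n` families are equal to one star -/

set_option autoImplicit false

namespace CrossR
open Finset Cross7592

private theorem c2_num {r n N S : ℕ} {f : Fin r → ℕ} (B E : Finset (Fin r)) (hB : #B ≤ n * n)
    (hE : #E ≤ n)
    (hf : ∀ i, f i ≤ (if i ∈ B then N else 0) + (S - 1) + (if i ∈ E then 1 else 0))
    (hS1 : 1 ≤ S) (hSN : S ≤ N) (hr : (n + 1) ^ 2 * (N + 1) ≤ r)
    (hS : (r - n) * S ≤ ∑ i, f i) : False := by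
  obtain ⟨S', rfl⟩ : ∃ S', S = S' + 1 := ⟨S - 1, by omega⟩
  have h1 : ∑ i, f i ≤ #B * N + r * S' + #E := by
    refine (sum_le_sum fun i _ => hf i).trans (le_of_eq ?_)
    rw [sum_add_distrib, sum_add_distrib, sum_ite_mem, sum_ite_mem, univ_inter, univ_inter,
      sum_const, sum_const, sum_const, card_univ, Fintype.card_fin, Nat.add_sub_cancel]
    simp
  have h2 : #B * N ≤ n * n * N := Nat.mul_le_mul_right _ hB
  have h3 : n ≤ r := by nlinarith
  obtain ⟨d, rfl⟩ := Nat.exists_eq_add_of_le h3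
  rw [Nat.add_sub_cancel_left] at hS
  have h4 : n * S' ≤ n * N := Nat.mul_le_mul_left _ (by omega)
  have h5 : d * (S' + 1) = d * S' + d := by ring
  have h6 : (n + d) * S' = n * S' + d * S' := by ring
  have h7 : (n + 1) ^ 2 * (N + 1) = n * n * N + 2 * (n * N) + N + n * n + 2 * n + 1 := by ring
  rw [h7] at hr
  rw [h5] at hS
  rw [h6] at h1
  have h8 := hS.trans h1
  omega

theorem exists_star {n k r t : ℕ} {L : Finset ℕ} {𝒜 : Fin r → Finset (Finset (Fin n))}
    (h : Adm n k r L 𝒜) (ht : ∀ l ∈ L, t ≤ l) (htk : t < k) (hkn : k < n)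
    (hr : (n + 1) ^ 2 * (n.choose k + 1) ≤ r)
    (hS : (r - n) * (n - t).choose (k - t) ≤ total 𝒜) :
    ∃ T : Finset (Fin n), #T = t ∧ n < #(univ.filter fun i : Fin r => 𝒜 i = sd n k T ∅) := by
  classical
  have hr0 : 0 < r := by
    refine lt_of_lt_of_le ?_ hr
    positivity
  obtain ⟨Z, hZt, hZ⟩ := exists_Z h ht hr0
  obtain ⟨B, hBd⟩ : ∃ B : Finset (Fin r),
      B = Z.biUnion fun x => univ.filter fun i : Fin r => ∃ F ∈ 𝒜 i, x ∉ F := ⟨_, rfl⟩
  have hB : #B ≤ n * n := by
    rw [hBd]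
    refine card_biUnion_le.trans ((sum_le_card_nsmul Z _ n fun x hx => (hZ x hx).le).trans ?_)
    rw [smul_eq_mul]
    refine Nat.mul_le_mul_right _ ?_
    have := card_le_univ Z
    rwa [Fintype.card_fin] at this
  have hnB : ∀ i, i ∉ B → ∀ F ∈ 𝒜 i, Z ⊆ F := by
    intro i hi F hF x hx
    by_contra hxF
    apply hi
    rw [hBd, mem_biUnion]
    exact ⟨x, hx, mem_filter.2 ⟨mem_univ _, F, hF, hxF⟩⟩
  have hN : ∀ i, #(𝒜 i) ≤ n.choose k := by
    intro i
    have h1 : 𝒜 i ⊆ powersetCard k univ := fun F hF => by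
      rw [mem_powersetCard]
      exact ⟨subset_univ _, h.sub i F hF⟩
    have h2 := card_le_card h1
    rwa [card_powersetCard, card_univ, Fintype.card_fin] at h2
  have hS1 : 1 ≤ (n - t).choose (k - t) := Nat.choose_pos (by omega)
  have hcard : ∀ T : Finset (Fin n), #T ≤ k → #(sd n k T ∅) = (n - #T).choose (k - #T) := by
    intro T hT
    rw [card_sd T ∅ (disjoint_empty_right T) hT, card_empty, Nat.sub_zero]
  have hSN : (n - t).choose (k - t) ≤ n.choose k := by
    obtain ⟨T, hT1, hT2⟩ := exists_subset_card_eq (s := (univ : Finset (Fin n))) (n := t) (by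
      rw [card_univ, Fintype.card_fin]
      omega)
    have h1 := hcard T (by omega)
    rw [hT2] at h1
    rw [← h1]
    have h2 : sd n k T ∅ ⊆ powersetCard k univ := fun F hF => by
      rw [mem_powersetCard]
      exact ⟨subset_univ _, (mem_sd.1 hF).1⟩
    have h3 := card_le_card h2
    rwa [card_powersetCard, card_univ, Fintype.card_fin] at h3
  have hsub : ∀ i, i ∉ B → ∀ T ⊆ Z, 𝒜 i ⊆ sd n k T ∅ := by
    intro i hi T hT F hF
    rw [mem_sd]
    exact ⟨h.sub i F hF, hT.trans (hnB i hi F hF), disjoint_empty_right F⟩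
  rcases Nat.lt_or_ge t #Z with hlt | hge
  · exfalso
    obtain ⟨Z0, hZ0, hZ0c⟩ := exists_subset_card_eq (s := Z) (n := t + 1) hlt
    have hP : (n - (t + 1)).choose (k - (t + 1)) ≤ (n - t).choose (k - t) - 1 := by
      have e1 : n - t = (n - (t + 1)) + 1 := by omega
      have e2 : k - t = (k - (t + 1)) + 1 := by omega
      have h1 : (n - t).choose (k - t) = (n - (t + 1)).choose (k - (t + 1)) +
          (n - (t + 1)).choose (k - (t + 1) + 1) := by
        rw [e1, e2, Nat.choose_succ_succ]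
      have h2 : 1 ≤ (n - (t + 1)).choose (k - (t + 1) + 1) := Nat.choose_pos (by omega)
      omega
    refine c2_num (N := n.choose k) (S := (n - t).choose (k - t)) (f := fun i => #(𝒜 i)) B ∅ hB
      (by simp) ?_ hS1 hSN hr hS
    intro i
    by_cases hi : i ∈ B
    · rw [if_pos hi]
      have := hN i
      omega
    · have h1 := card_le_card (hsub i hi Z0 hZ0)
      rw [hcard Z0 (by omega), hZ0c] at h1
      exact (h1.trans hP).trans (by omega)
  · have hZc : #Z = t := le_antisymm hge hZt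
    refine ⟨Z, hZc, ?_⟩
    by_contra hcon
    push Not at hcon
    refine c2_num (N := n.choose k) (S := (n - t).choose (k - t)) (f := fun i => #(𝒜 i)) B
      (univ.filter fun i : Fin r => 𝒜 i = sd n k Z ∅) hB hcon ?_ hS1 hSN hr hS
    intro i
    by_cases hi : i ∈ B
    · rw [if_pos hi]
      have := hN i
      omega
    · have h1 := hsub i hi Z (subset_refl Z)
      have h2 := hcard Z (by omega)
      rw [hZc] at h2
      by_cases he : 𝒜 i = sd n k Z ∅
      · rw [if_pos (show i ∈ univ.filter fun i : Fin r => 𝒜 i = sd n k Z ∅ from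
          mem_filter.2 ⟨mem_univ _, he⟩)]
        have h3 : #(𝒜 i) = (n - t).choose (k - t) := by rw [he, h2]
        omega
      · have h3 : #(𝒜 i) < #(sd n k Z ∅) := card_lt_card (ssubset_of_subset_of_ne h1 he)
        rw [h2] at h3
        omega

end CrossR
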