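import Pool.Agent.Lib.MP_7592f8R.B

/-! # leaf D1: if more than `n` families are the star of `T`, all members contain `T` -/

set_option autoImplicit false

namespace CrossR
open Finset Cross7592

theorem all_sub {n k r t : ℕ} {L : Finset ℕ} {𝒜 : Fin r → Finset (Finset (Fin n))}
    (h : Adm n k r L 𝒜) (ht : ∀ l ∈ L, t ≤ l) (htk : t < k) (hkn : k < n)
    {T : Finset (Fin n)} (hT : #T = t)
    (hE : n < #(univ.filter fun i : Fin r => 𝒜 i = sd n k T ∅)) :
    ∀ i, ∀ F ∈ 𝒜 i, T ⊆ F := by
  classical
  intro i F hF x hxT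
  by_contra hxF
  set E : Finset (Fin r) := univ.filter fun i : Fin r => 𝒜 i = sd n k T ∅ with hEdef
  -- an injection of the points outside `T` into `E` without `i`
  have hcard : Fintype.card (Fin n) ≤ #(E.erase i) := by
    rw [Fintype.card_fin]
    have := Finset.pred_card_le_card_erase (s := E) (a := i)
    omega
  obtain ⟨g, hg⟩ : ∃ g : Fin n ↪ Fin r, ∀ y, g y ∈ E.erase i := by
    have h1 : Nonempty (Fin n ↪ (E.erase i : Finset (Fin r))) := by
      apply Function.Embedding.nonempty_of_card_le
      rwa [Fintype.card_coe]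
    obtain ⟨f⟩ := h1
    exact ⟨f.trans (Function.Embedding.subtype _), fun y => (f y).2⟩
  -- sets that avoid a point
  have hav : ∀ y, y ∉ T → ∃ F : Finset (Fin n), #F = k ∧ T ⊆ F ∧ y ∉ F := fun y hy =>
    exists_kset (by omega) hkn hy
  choose! G hG1 hG2 hG3 using hav
  have hne : ∀ j, ∃ A, A ∈ 𝒜 j := fun j => h.ne j
  choose N hN using hne
  -- the tuple
  let A : Fin r → Finset (Fin n) := fun j =>
    if j = i then F else if hj : ∃ y, y ∉ T ∧ g y = j then G hj.choose else N j
  have hAi : A i = F := by simp [A]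
  have hAg : ∀ y, y ∉ T → A (g y) = G y := by
    intro y hy
    have hne : g y ≠ i := (mem_erase.1 (hg y)).1
    have hex : ∃ z, z ∉ T ∧ g z = g y := ⟨y, hy, rfl⟩
    have h2 : A (g y) = G hex.choose := by
      simp only [A]
      rw [if_neg hne, dif_pos hex]
    rw [h2]
    congr 1
    exact g.injective hex.choose_spec.2
  have hmem : ∀ j, A j ∈ 𝒜 j := by
    intro j
    by_cases hji : j = i
    · rw [hji, hAi]; exact hF
    · by_cases hj : ∃ y, y ∉ T ∧ g y = j
      · obtain ⟨y, hy, rfl⟩ := hj
        rw [hAg y hy]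
        have h3 : 𝒜 (g y) = sd n k T ∅ := by
          have := (mem_erase.1 (hg y)).2
          rw [hEdef, mem_filter] at this
          exact this.2
        rw [h3, mem_sd]
        exact ⟨hG1 y hy, hG2 y hy, disjoint_empty_right _⟩
      · have h2 : A j = N j := by
          simp only [A]
          rw [if_neg hji, dif_neg hj]
        rw [h2]
        exact hN j
  have hsub : common A ⊆ T.erase x := by
    intro y hy
    rw [mem_common] at hy
    rw [mem_erase]
    refine ⟨?_, ?_⟩
    · rintro rfl
      have := hy i
      rw [hAi] at this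
      exact hxF this
    · by_contra hyT
      have := hy (g y)
      rw [hAg y hyT] at this
      exact hG3 y hyT this
  have h4 := card_le_card hsub
  rw [card_erase_of_mem hxT, hT] at h4
  have h5 := ht _ (h.cross A hmem)
  have h6 : 0 < t := by
    rw [← hT]
    exact card_pos.2 ⟨x, hxT⟩
  omega

end CrossR
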