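import Pool.Agent.Lib.MP_7592f8R.D1

/-! # leaf D2: if more than `n` families are the star of `T`, the tuple is admissible for the
first run -/

set_option autoImplicit false

namespace CrossR
open Finset Cross7592

theorem adm_Ico {n k r t j : ℕ} {L : Finset ℕ} {𝒜 : Fin r → Finset (Finset (Fin n))}
    (h : Adm n k r L 𝒜) (ht : ∀ l ∈ L, t ≤ l) (hj : t + j ∉ L) (hjk : t + j ≤ k) (hkn : k < n)
    {T : Finset (Fin n)} (hT : #T = t)
    (hE : n < #(univ.filter fun i : Fin r => 𝒜 i = sd n k T ∅))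
    (hsub : ∀ i, ∀ F ∈ 𝒜 i, T ⊆ F) :
    Adm n k r (Ico t (t + j)) 𝒜 := by
  classical
  refine ⟨h.sub, h.ne, fun A hA => ?_⟩
  have hr : 0 < r := by
    rcases Nat.eq_zero_or_pos r with h0 | h0
    · subst h0
      have : #(univ.filter fun i : Fin 0 => 𝒜 i = sd n k T ∅) = 0 := by
        rw [Finset.card_eq_zero]; ext x; exact x.elim0
      omega
    · exact h0
  have hTA : T ⊆ common A := fun x hx => mem_common.2 fun i => hsub i _ (hA i) hx
  have h1 : t ≤ #(common A) := by rw [← hT]; exact card_le_card hTA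
  rw [mem_Ico]
  refine ⟨h1, ?_⟩
  by_contra hcon
  push Not at hcon
  obtain ⟨J, hJ1, hJ2, hJ3⟩ := exists_subsuperset_card_eq hTA (by rw [hT]; omega) hcon
  obtain ⟨S, hS⟩ : ∃ S : Finset (Fin r), S = univ.filter fun i : Fin r => 𝒜 i = sd n k T ∅ :=
    ⟨_, rfl⟩
  have hcard : ∀ y ∈ univ \ J, #(univ \ J) ≤ #((fun _ : Fin n => S) y) := by
    intro y _
    have h2 : #(univ \ J) ≤ n := by
      have h3 := Finset.card_le_univ (univ \ J)
      rwa [Fintype.card_fin] at h3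
    have h4 : n < #S := by rw [hS]; exact hE
    exact h2.trans h4.le
  obtain ⟨g, hg1, hg2⟩ := exists_sdr hr (univ \ J) (fun _ => S) hcard
  have hW : ∀ y : Fin n, ∃ F : Finset (Fin n), y ∉ J → #F = k ∧ J ⊆ F ∧ y ∉ F := by
    intro y
    by_cases hy : y ∈ J
    · exact ⟨∅, fun h => absurd hy h⟩
    · obtain ⟨F, hF⟩ := exists_kset (k := k) (by rw [hJ3]; exact hjk) hkn hy
      exact ⟨F, fun _ => hF⟩
  choose W hW using hW
  obtain ⟨A', hA'⟩ : ∃ A' : Fin r → Finset (Fin n), ∀ i,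
      (∃ y, y ∉ J ∧ g y = i ∧ A' i = W y) ∨ ((¬ ∃ y, y ∉ J ∧ g y = i) ∧ A' i = A i) := by
    refine ⟨fun i => if hi : ∃ y, y ∉ J ∧ g y = i then W hi.choose else A i, fun i => ?_⟩
    by_cases hi : ∃ y, y ∉ J ∧ g y = i
    · left
      exact ⟨hi.choose, hi.choose_spec.1, hi.choose_spec.2, dif_pos hi⟩
    · right
      exact ⟨hi, dif_neg hi⟩
  have hmem : ∀ i, A' i ∈ 𝒜 i := by
    intro i
    rcases hA' i with ⟨y, hy, hgy, hAy⟩ | ⟨-, hAy⟩
    · have h5 := hg1 y (by simpa using hy)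
      rw [hS, mem_filter] at h5
      rw [hAy, ← hgy, h5.2, mem_sd]
      obtain ⟨a1, a2, a3⟩ := hW y hy
      exact ⟨a1, hJ1.trans a2, disjoint_empty_right _⟩
    · rw [hAy]; exact hA i
  have hcom : common A' = J := by
    ext x
    rw [mem_common]
    constructor
    · intro hx
      by_contra hxJ
      rcases hA' (g x) with ⟨y, hy, hgy, hAy⟩ | ⟨hno, -⟩
      · have hyx : y = x := hg2 (by simpa using hy) (by simpa using hxJ) hgy
        have h6 := hx (g x)
        rw [hAy, hyx] at h6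
        exact (hW x hxJ).2.2 h6
      · exact hno ⟨x, hxJ, rfl⟩
    · intro hx i
      rcases hA' i with ⟨y, hy, -, hAy⟩ | ⟨-, hAy⟩
      · rw [hAy]; exact (hW y hy).2.1 hx
      · rw [hAy]; exact mem_common.1 (hJ2 hx) i
  have h7 := h.cross A' hmem
  rw [hcom, hJ3] at h7
  exact hj h7

end CrossR
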