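import Pool.Agent.Lib.MP_7592f8.Defs

/-!
# MP_7592f8_co: many families (helper97): definitions
-/

namespace Cross7592
open Finset

/-- The value of the configurations of type C: with `n - t = q (n - k) + ρ`, `ρ < n - k`, it is
`q + C(n-t-ρ, k-t) + (r-q-1) C(n-t, k-t)`. -/
def valC (n k r t : ℕ) : ℕ :=
  (n - t) / (n - k) + (n - t - (n - t) % (n - k)).choose (k - t) +
    (r - (n - t) / (n - k) - 1) * (n - t).choose (k - t)

/-- Type C: the points outside a `t`-set `T` are divided into sets `X 1, ..., X r` such that all of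
them but one are empty or have `n - k` elements and the remaining one has at most `n - k` elements;
the `i`-th family consists of all `k`-sets `F ⊇ T` that are disjoint from `X i`. -/
def TypeC (n k r t : ℕ) (𝒜 : Fin r → Finset (Finset (Fin n))) : Prop :=
  ∃ (T : Finset (Fin n)) (X : Fin r → Finset (Fin n)) (i₀ : Fin r), #T = t ∧
    (∀ i j, i ≠ j → Disjoint (X i) (X j)) ∧ (∀ x, x ∉ T ↔ ∃ i, x ∈ X i) ∧
    (∀ i, i ≠ i₀ → #(X i) = 0 ∨ #(X i) = n - k) ∧ #(X i₀) ≤ n - k ∧
    ∀ i F, F ∈ 𝒜 i ↔ #F = k ∧ T ⊆ F ∧ Disjoint F (X i)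

end Cross7592
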