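import Pool.Agent.Lib.MP_7592f8R.A
import Pool.Agent.Lib.MP_7592f8R.B

/-! # leaf E: a large tuple -/

set_option autoImplicit false

namespace CrossR
open Finset Cross7592

theorem exists_low (n k r t j : ℕ) (hkn : k < n) (htk : t < k) (hj : 1 ≤ j) (hr : n ≤ r) :
    ∃ 𝒜 : Fin r → Finset (Finset (Fin n)), Adm n k r (Ico t (t + j)) 𝒜 ∧
      (r - n) * (n - t).choose (k - t) ≤ total 𝒜 := by
  classical
  obtain ⟨T, -, hT⟩ := exists_subset_card_eq (s := (univ : Finset (Fin n))) (n := t)
    (by rw [card_univ, Fintype.card_fin]; omega)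
  have hYc : #(univ \ T : Finset (Fin n)) = n - t := by
    rw [card_sdiff_of_subset (subset_univ _), card_univ, Fintype.card_fin, hT]
  obtain ⟨g, -, hg⟩ := exists_sdr (n := n) (r := r) (by omega) (univ \ T) (fun _ => univ)
    (fun y _ => by rw [hYc, card_univ, Fintype.card_fin]; omega)
  have hK : ∀ y : Fin n, ∃ F : Finset (Fin n), y ∉ T → (#F = k ∧ T ⊆ F ∧ y ∉ F) := by
    intro y
    by_cases hy : y ∈ T
    · exact ⟨∅, fun h => absurd hy h⟩
    · obtain ⟨F, hF⟩ := exists_kset (k := k) (n := n) (by omega : #T ≤ k) hkn hy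
      exact ⟨F, fun _ => hF⟩
  choose K hK using hK
  let 𝒜 : Fin r → Finset (Finset (Fin n)) := fun i =>
    if h : ∃ y, y ∉ T ∧ g y = i then {K h.choose} else sd n k T ∅
  have hA1 : ∀ y, y ∉ T → 𝒜 (g y) = {K y} := by
    intro y hy
    have h : ∃ z, z ∉ T ∧ g z = g y := ⟨y, hy, rfl⟩
    have h2 : h.choose = y := hg (by simpa using h.choose_spec.1) (by simpa using hy)
      h.choose_spec.2
    simp only [𝒜]
    rw [dif_pos h, h2]
  have hA2 : ∀ i, i ∉ (univ \ T).image g → 𝒜 i = sd n k T ∅ := by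
    intro i hi
    have h : ¬ ∃ z, z ∉ T ∧ g z = i := by
      rintro ⟨z, hz, hz2⟩
      exact hi (mem_image.2 ⟨z, by simpa using hz, hz2⟩)
    simp only [𝒜]
    rw [dif_neg h]
  have hmem : ∀ i, ∀ F ∈ 𝒜 i, #F = k ∧ T ⊆ F := by
    intro i F hF
    by_cases hi : i ∈ (univ \ T).image g
    · obtain ⟨y, hy, rfl⟩ := mem_image.1 hi
      have hy' : y ∉ T := by simpa using hy
      rw [hA1 y hy', mem_singleton] at hF
      subst hF
      exact ⟨(hK y hy').1, (hK y hy').2.1⟩
    · rw [hA2 i hi, mem_sd] at hF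
      exact ⟨hF.1, hF.2.1⟩
  refine ⟨𝒜, ⟨fun i F hF => (hmem i F hF).1, ?_, ?_⟩, ?_⟩
  · intro i
    by_cases hi : i ∈ (univ \ T).image g
    · obtain ⟨y, hy, rfl⟩ := mem_image.1 hi
      rw [hA1 y (by simpa using hy)]
      exact singleton_nonempty _
    · rw [hA2 i hi]
      have hne : (univ \ T : Finset (Fin n)).Nonempty := by
        rw [← card_pos, hYc]; omega
      obtain ⟨y, hy⟩ := hne
      obtain ⟨F, hF⟩ := exists_kset (k := k) (n := n) (by omega : #T ≤ k) hkn
        (by simpa using hy : y ∉ T)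
      exact ⟨F, mem_sd.2 ⟨hF.1, hF.2.1, disjoint_empty_right _⟩⟩
  · intro A hA
    have hc : common A = T := by
      ext x
      rw [mem_common]
      constructor
      · intro h
        by_contra hx
        have h1 := hA (g x)
        rw [hA1 x hx, mem_singleton] at h1
        have h2 := h (g x)
        rw [h1] at h2
        exact (hK x hx).2.2 h2
      · intro hx i
        exact (hmem i (A i) (hA i)).2 hx
    rw [hc, hT, mem_Ico]
    omega
  · have h1 : ∑ i ∈ univ \ (univ \ T).image g, #(𝒜 i) ≤ total 𝒜 :=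
      sum_le_sum_of_subset (subset_univ _)
    have h2 : ∑ i ∈ univ \ (univ \ T).image g, #(𝒜 i)
        = #(univ \ (univ \ T).image g) * (n - t).choose (k - t) := by
      rw [sum_const_nat]
      intro i hi
      rw [hA2 i (by simpa using hi), card_sd T ∅ (disjoint_empty_right _) (by omega), hT]
      simp
    have h3 : r - n ≤ #(univ \ (univ \ T).image g) := by
      have h4 : #((univ \ T).image g) ≤ n - t := hYc ▸ card_image_le
      rw [card_sdiff_of_subset (subset_univ _), card_univ, Fintype.card_fin]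
      omega
    calc (r - n) * (n - t).choose (k - t)
        ≤ #(univ \ (univ \ T).image g) * (n - t).choose (k - t) := Nat.mul_le_mul_right _ h3
      _ = _ := h2.symm
      _ ≤ _ := h1

end CrossR
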