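import Mathlib

/-! # leaf F1: strict convexity of binomial coefficients, one step -/

set_option autoImplicit false

namespace CrossR

theorem choose_step (M K a b : ℕ) (hK : 2 ≤ K) (ha : 1 ≤ a) (hab : a ≤ b) (hb : b + 1 + K ≤ M) :
    (M - a).choose K + (M - b).choose K < (M - (a - 1)).choose K + (M - (b + 1)).choose K := by
  obtain ⟨j, rfl⟩ : ∃ j, K = j + 2 := ⟨K - 2, by omega⟩
  obtain ⟨u, hu⟩ : ∃ u, M = b + 1 + u := ⟨M - (b + 1), by omega⟩
  obtain ⟨p, hp⟩ : ∃ p, M = a + p := ⟨M - a, by omega⟩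
  have h1 : M - a = p := by omega
  have h2 : M - (a - 1) = p + 1 := by omega
  have h3 : M - b = u + 1 := by omega
  have h4 : M - (b + 1) = u := by omega
  rw [h1, h2, h3, h4, Nat.choose_succ_succ p (j + 1), Nat.choose_succ_succ u (j + 1)]
  have h5 : (u + 1).choose (j + 1) = u.choose j + u.choose (j + 1) := Nat.choose_succ_succ u j
  have h6 : 0 < u.choose j := Nat.choose_pos (by omega)
  have h7 : (u + 1).choose (j + 1) ≤ p.choose (j + 1) := Nat.choose_le_choose (j + 1) (by omega)
  have h8 : (j + 1).succ = j + 2 := rfl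
  simp only [h8] at *
  omega

end CrossR
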