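import Mathlib

/-! # leaf F2: the value of a sum with at most one interior term -/

set_option autoImplicit false

namespace CrossR
open Finset

theorem sum_val (M K d r : ℕ) (hd : 0 < d) (hM : K + d = M) (hr : M / d < r) (x : Fin r → ℕ)
    (i₀ : Fin r) (hx : ∀ i, i ≠ i₀ → x i = 0 ∨ x i = d) (h0 : x i₀ ≤ d) (hs : ∑ i, x i = M) :
    ∑ i, (M - x i).choose K = M / d + (M - M % d).choose K + (r - M / d - 1) * M.choose K := by
  classical
  obtain ⟨S, hS⟩ : ∃ S : Finset (Fin r), S = univ.erase i₀ := ⟨_, rfl⟩
  obtain ⟨P, hP⟩ : ∃ P : Finset (Fin r), P = S.filter (fun i => x i = d) := ⟨_, rfl⟩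
  have hcS : #S = r - 1 := by
    rw [hS, card_erase_of_mem (mem_univ _), card_univ, Fintype.card_fin]
  have hcN : #(S.filter (fun i => ¬ x i = d)) + #P = #S := by
    rw [hP, add_comm]
    exact card_filter_add_card_filter_not _
  have hmem : ∀ i ∈ S, x i = 0 ∨ x i = d := fun i hi => by
    rw [hS, mem_erase] at hi
    exact hx i hi.1
  have e1 : ∑ i, x i = x i₀ + #P * d := by
    rw [← add_sum_erase _ _ (mem_univ i₀), ← hS]
    congr 1
    rw [sum_congr rfl (g := fun i => if x i = d then d else 0) (fun i hi => by
      rcases hmem i hi with h | h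
      · have : ¬ x i = d := by omega
        simp only [this, if_false]
        exact h
      · simp [h])]
    rw [sum_ite, sum_const_zero, add_zero, sum_const, smul_eq_mul, ← hP]
  have e2 : ∑ i, (M - x i).choose K =
      (M - x i₀).choose K + (#P + #(S.filter (fun i => ¬ x i = d)) * M.choose K) := by
    rw [← add_sum_erase _ _ (mem_univ i₀), ← hS]
    congr 1
    rw [sum_congr rfl (g := fun i => if x i = d then 1 else M.choose K) (fun i hi => by
      rcases hmem i hi with h | h
      · have : ¬ x i = d := by omega
        simp only [this, if_false]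
        rw [h, Nat.sub_zero]
      · simp only [h, if_true]
        have : M - d = K := by omega
        rw [this, Nat.choose_self])]
    rw [sum_ite, sum_const, sum_const, smul_eq_mul, smul_eq_mul, mul_one, ← hP]
  rw [hs] at e1
  rw [e2]
  rcases lt_or_eq_of_le h0 with h | h
  · have d1 : M / d = #P := by
      rw [e1, Nat.add_mul_div_right _ _ hd, Nat.div_eq_of_lt h, zero_add]
    have d2 : M % d = x i₀ := by
      rw [e1, Nat.add_mul_mod_self_right, Nat.mod_eq_of_lt h]
    rw [d1] at hr
    rw [d1, d2]
    have d3 : #(S.filter (fun i => ¬ x i = d)) = r - #P - 1 := by omega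
    rw [d3]
    ring
  · have e3 : M = (#P + 1) * d := by rw [e1, h]; ring
    have d1 : M / d = #P + 1 := by
      rw [e3, Nat.mul_div_cancel _ hd]
    have d2 : M % d = 0 := by
      rw [e3, Nat.mul_mod_left]
    rw [d1] at hr
    rw [d1, d2, h]
    have d3 : #(S.filter (fun i => ¬ x i = d)) = r - (#P + 1) - 1 + 1 := by omega
    have d4 : M - d = K := by omega
    rw [d3, d4, Nat.choose_self, Nat.sub_zero]
    ring

end CrossR
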