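import Pool.Agent.Lib.MP_7592f8R.F1
import Pool.Agent.Lib.MP_7592f8R.F2

/-! # leaf F3: the maximum of the sum -/

set_option autoImplicit false

namespace CrossR
open Finset

private theorem sum_two {r : ℕ} (g : ℕ → ℕ) (z : Fin r → ℕ) (i j : Fin r) (hij : i ≠ j)
    (p q : ℕ) :
    ∑ k, g (Function.update (Function.update z i p) j q k) + (g (z i) + g (z j)) =
      ∑ k, g (z k) + (g p + g q) := by
  have h1 : ∀ w : Fin r → ℕ, ∑ k, g (w k) =
      g (w j) + (g (w i) + ∑ k ∈ (univ.erase j).erase i, g (w k)) := by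
    intro w
    rw [Finset.add_sum_erase (univ.erase j) (fun k => g (w k)) (by simp [hij]),
      Finset.add_sum_erase univ (fun k => g (w k)) (by simp)]
  rw [h1 (Function.update (Function.update z i p) j q), h1 z]
  have h2 : ∑ k ∈ (univ.erase j).erase i, g (Function.update (Function.update z i p) j q k) =
      ∑ k ∈ (univ.erase j).erase i, g (z k) := by
    apply Finset.sum_congr rfl
    intro k hk
    rw [Finset.mem_erase, Finset.mem_erase] at hk
    rw [Function.update_of_ne hk.2.1, Function.update_of_ne hk.1]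
  have h3 : Function.update (Function.update z i p) j q j = q := by simp
  have h4 : Function.update (Function.update z i p) j q i = p := by
    rw [Function.update_of_ne hij]; simp
  rw [h2, h3, h4]
  omega

theorem sum_le (M K d r : ℕ) (hK : 2 ≤ K) (hd : 0 < d) (hM : K + d = M) (hr : M / d < r)
    (x : Fin r → ℕ) (hx : ∀ i, x i ≤ d) (hs : ∑ i, x i = M) :
    ∑ i, (M - x i).choose K ≤ M / d + (M - M % d).choose K + (r - M / d - 1) * M.choose K ∧
      (∑ i, (M - x i).choose K = M / d + (M - M % d).choose K + (r - M / d - 1) * M.choose K →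
        ∃ i₀, ∀ i, i ≠ i₀ → x i = 0 ∨ x i = d) := by
  classical
  set S : Finset (Fin r → ℕ) :=
    (Fintype.piFinset fun _ => range (d + 1)).filter fun y => ∑ i, y i = M with hS
  have hmem : ∀ y : Fin r → ℕ, y ∈ S ↔ (∀ i, y i ≤ d) ∧ ∑ i, y i = M := by
    intro y
    rw [hS, Finset.mem_filter, Fintype.mem_piFinset]
    simp
  have hxS : x ∈ S := (hmem x).2 ⟨hx, hs⟩
  obtain ⟨y, hyS, hymax⟩ := S.exists_max_image (fun y => ∑ i, (M - y i).choose K) ⟨x, hxS⟩
  have key : ∀ z ∈ S, (∀ w ∈ S, ∑ i, (M - w i).choose K ≤ ∑ i, (M - z i).choose K) →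
      ∀ i j, i ≠ j → z i ≠ 0 → z i ≠ d → z j ≠ 0 → z j ≠ d → z i ≤ z j → False := by
    intro z hz hmax i j hij h1 h2 h3 h4 h5
    obtain ⟨hz1, hz2⟩ := (hmem z).1 hz
    have hjd : z j < d := lt_of_le_of_ne (hz1 j) h4
    have hsum := sum_two (fun t => t) z i j hij (z i - 1) (z j + 1)
    have hwS : Function.update (Function.update z i (z i - 1)) j (z j + 1) ∈ S := by
      rw [hmem]
      refine ⟨?_, ?_⟩
      · intro k
        by_cases hkj : k = j
        · subst hkj
          rw [Function.update_self]; omega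
        · rw [Function.update_of_ne hkj]
          by_cases hki : k = i
          · subst hki
            rw [Function.update_self]
            have := hz1 k
            omega
          · rw [Function.update_of_ne hki]; exact hz1 k
      · omega
    have hle := hmax _ hwS
    have hsum2 := sum_two (fun t => (M - t).choose K) z i j hij (z i - 1) (z j + 1)
    have hst := choose_step M K (z i) (z j) hK (by omega) h5 (by omega)
    omega
  have claim : ∀ z ∈ S, (∀ w ∈ S, ∑ i, (M - w i).choose K ≤ ∑ i, (M - z i).choose K) →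
      ∃ i₀, ∀ i, i ≠ i₀ → z i = 0 ∨ z i = d := by
    intro z hz hmax
    by_contra hcon
    push Not at hcon
    have hr0 : 0 < r := Nat.lt_of_le_of_lt (Nat.zero_le _) hr
    obtain ⟨i, _, hi1, hi2⟩ := hcon ⟨0, hr0⟩
    obtain ⟨j, hji, hj1, hj2⟩ := hcon i
    rcases le_total (z i) (z j) with h | h
    · exact key z hz hmax i j (Ne.symm hji) hi1 hi2 hj1 hj2 h
    · exact key z hz hmax j i hji hj1 hj2 hi1 hi2 h
  obtain ⟨i₀, hi₀⟩ := claim y hyS hymax
  have hval := sum_val M K d r hd hM hr y i₀ hi₀ (((hmem y).1 hyS).1 i₀) ((hmem y).1 hyS).2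
  have hxy := hymax x hxS
  refine ⟨by rw [← hval]; exact hxy, ?_⟩
  intro heq
  apply claim x hxS
  intro w hw
  rw [heq, ← hval]
  exact hymax w hw

end CrossR
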