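import Pool.Agent.Lib.MP_7592f8R.A
import Pool.Agent.Lib.MP_7592f8R.F2

/-! # leaf G1: the configurations of type C -/

set_option autoImplicit false

namespace CrossR
open Finset Cross7592

private theorem disj_TX {n r : ℕ} {T : Finset (Fin n)} {X : Fin r → Finset (Fin n)}
    (hT : ∀ x, x ∉ T ↔ ∃ i, x ∈ X i) (i : Fin r) : Disjoint T (X i) := by
  rw [Finset.disjoint_left]
  intro x hx hxi
  exact (hT x).2 ⟨i, hxi⟩ hx

private theorem eq_sd {n k r : ℕ} {T : Finset (Fin n)} {X : Fin r → Finset (Fin n)}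
    {𝒜 : Fin r → Finset (Finset (Fin n))}
    (h : ∀ i F, F ∈ 𝒜 i ↔ #F = k ∧ T ⊆ F ∧ Disjoint F (X i)) (i : Fin r) :
    𝒜 i = sd n k T (X i) := by
  ext F
  rw [h, mem_sd]

theorem typeC_adm {n k r t : ℕ} {L : Finset ℕ} {𝒜 : Fin r → Finset (Finset (Fin n))}
    (htL : t ∈ L) (htk : t < k) (hkn : k < n) (h : TypeC n k r t 𝒜) : Adm n k r L 𝒜 := by
  obtain ⟨T, X, i₀, hT, _, hcov, hX, hX0, hA⟩ := h
  have hXle : ∀ i, #(X i) ≤ n - k := by
    intro i
    by_cases hi : i = i₀
    · rw [hi]; exact hX0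
    · rcases hX i hi with h0 | h0 <;> omega
  refine ⟨fun i F hF => ((hA i F).1 hF).1, fun i => ?_, fun A hAm => ?_⟩
  · rw [← card_pos, eq_sd hA i, card_sd T (X i) (disj_TX hcov i) (by omega), hT]
    have := hXle i
    exact Nat.choose_pos (by omega)
  · have hc : common A = T := by
      ext x
      rw [mem_common]
      constructor
      · intro hx
        by_contra hxT
        obtain ⟨i, hi⟩ := (hcov x).1 hxT
        have h3 := ((hA i (A i)).1 (hAm i)).2.2
        exact (Finset.disjoint_left.1 h3) (hx i) hi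
      · intro hx i
        exact ((hA i (A i)).1 (hAm i)).2.1 hx
    rw [hc, hT]
    exact htL

theorem typeC_total {n k r t : ℕ} {𝒜 : Fin r → Finset (Finset (Fin n))}
    (htk : t < k) (hkn : k < n) (hr : n < r) (h : TypeC n k r t 𝒜) : total 𝒜 = valC n k r t := by
  obtain ⟨T, X, i₀, hT, hdis, hcov, hX, hX0, hA⟩ := h
  have hsum : ∑ i, #(X i) = n - t := by
    have h1 : #((univ : Finset (Fin r)).biUnion X) = ∑ i, #(X i) :=
      card_biUnion fun i _ j _ hij => hdis i j hij
    rw [← h1]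
    have h2 : (univ : Finset (Fin r)).biUnion X = Tᶜ := by
      ext x
      rw [mem_biUnion, mem_compl, hcov]
      simp
    rw [h2, card_compl, Fintype.card_fin, hT]
  have hdiv : (n - t) / (n - k) < r :=
    lt_of_le_of_lt (le_trans (Nat.div_le_self _ _) (Nat.sub_le _ _)) hr
  have key := sum_val (n - t) (k - t) (n - k) r (by omega) (by omega) hdiv (fun i => #(X i)) i₀
    hX hX0 hsum
  unfold total valC
  rw [← key]
  refine sum_congr rfl fun i _ => ?_
  rw [eq_sd hA i, card_sd T (X i) (disj_TX hcov i) (by omega), hT]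

end CrossR
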