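import Pool.Agent.Lib.MP_7592f8R.Base

/-! # leaf G3: existence of the configurations of type C -/

set_option autoImplicit false

namespace CrossR
open Finset Cross7592

theorem exists_typeC (n k r t : ℕ) (htk : t < k) (hkn : k < n) (hr : n < r) :
    ∃ 𝒜 : Fin r → Finset (Finset (Fin n)), TypeC n k r t 𝒜 := by
  obtain ⟨d, hd⟩ : ∃ d, d = n - k := ⟨_, rfl⟩
  have hd0 : 0 < d := by omega
  let X : Fin r → Finset (Fin n) := fun i =>
    univ.filter fun x : Fin n => t + i.1 * d ≤ x.1 ∧ x.1 < t + (i.1 + 1) * d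
  let T : Finset (Fin n) := univ.filter fun x : Fin n => x.1 < t
  have hmX : ∀ (i : Fin r) (x : Fin n), x ∈ X i ↔ t + i.1 * d ≤ x.1 ∧ x.1 < t + (i.1 + 1) * d := by
    intro i x; simp [X]
  have hmT : ∀ x : Fin n, x ∈ T ↔ x.1 < t := by intro x; simp [T]
  have hcX : ∀ i : Fin r, #(X i) = min n (t + (i.1 + 1) * d) - (t + i.1 * d) := by
    intro i
    have h : (X i).map Fin.valEmbedding = Finset.Ico (t + i.1 * d) (min n (t + (i.1 + 1) * d)) := by
      ext y
      simp only [mem_map, Fin.valEmbedding_apply, mem_Ico, lt_min_iff, hmX]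
      constructor
      · rintro ⟨x, hx, rfl⟩; exact ⟨hx.1, x.2, hx.2⟩
      · rintro ⟨h1, h2, h3⟩; exact ⟨⟨y, h2⟩, ⟨h1, h3⟩, rfl⟩
    rw [← card_map Fin.valEmbedding, h, Nat.card_Ico]
  have hcT : #T = t := by
    have h : T.map Fin.valEmbedding = Finset.range t := by
      ext y
      simp only [mem_map, Fin.valEmbedding_apply, mem_range, hmT]
      constructor
      · rintro ⟨x, hx, rfl⟩; exact hx
      · intro h; exact ⟨⟨y, by omega⟩, h, rfl⟩
    rw [← card_map Fin.valEmbedding, h, card_range]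
  obtain ⟨q, hq⟩ : ∃ q, q = (n - t) / d := ⟨_, rfl⟩
  have hqn : q ≤ n := by
    rw [hq]; exact le_trans (Nat.div_le_self _ _) (Nat.sub_le _ _)
  have hq1 : q * d ≤ n - t := by rw [hq]; exact Nat.div_mul_le_self _ _
  have hq2 : n - t < (q + 1) * d := by
    rw [hq, mul_comm]; exact Nat.lt_mul_div_succ _ hd0
  refine ⟨fun i => univ.filter fun F => #F = k ∧ T ⊆ F ∧ Disjoint F (X i), T, X,
    ⟨q, lt_of_le_of_lt hqn hr⟩, hcT, ?_, ?_, ?_, ?_, ?_⟩
  · intro i j hij
    rw [Finset.disjoint_left]
    intro x hi hj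
    rw [hmX] at hi hj
    rcases lt_or_gt_of_ne (fun h => hij (Fin.ext h) : i.1 ≠ j.1) with h | h
    · have := Nat.mul_le_mul_right d (Nat.succ_le_of_lt h)
      simp only [Nat.succ_eq_add_one] at this
      omega
    · have := Nat.mul_le_mul_right d (Nat.succ_le_of_lt h)
      simp only [Nat.succ_eq_add_one] at this
      omega
  · intro x
    rw [hmT]
    constructor
    · intro hx
      have h1 : (x.1 - t) / d * d ≤ x.1 - t := Nat.div_mul_le_self _ _
      have h2 : x.1 - t < ((x.1 - t) / d + 1) * d := by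
        rw [mul_comm]; exact Nat.lt_mul_div_succ _ hd0
      have h3 : (x.1 - t) / d < r := by
        have := Nat.div_le_self (x.1 - t) d
        have := x.2
        omega
      refine ⟨⟨(x.1 - t) / d, h3⟩, ?_⟩
      rw [hmX]
      simp only
      omega
    · rintro ⟨i, hi⟩
      rw [hmX] at hi
      have := Nat.zero_le (i.1 * d)
      omega
  · intro i hi
    have hi' : i.1 ≠ q := fun h => hi (Fin.ext h)
    rw [hcX, ← hd]
    rcases lt_or_gt_of_ne hi' with h | h
    · right
      have h1 := Nat.mul_le_mul_right d (Nat.succ_le_of_lt h)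
      simp only [Nat.succ_eq_add_one] at h1
      have h2 : (i.1 + 1) * d = i.1 * d + d := by ring
      omega
    · left
      have h1 := Nat.mul_le_mul_right d (Nat.succ_le_of_lt h)
      simp only [Nat.succ_eq_add_one] at h1
      omega
  · rw [hcX, ← hd]
    simp only
    have h2 : (q + 1) * d = q * d + d := by ring
    omega
  · intro i F
    simp
end CrossR
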