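import Pool.Agent.Lib.MP_7592f8R.Base

/-! # leaf H1: the structure of the tuples all of whose choices have the intersection `T` -/

set_option autoImplicit false

namespace CrossR
open Finset Cross7592

theorem exists_X {n k r t : ℕ} {𝒜 : Fin r → Finset (Finset (Fin n))}
    (h : Adm n k r (Ico t (t + 1)) 𝒜) {T : Finset (Fin n)} (hT : #T = t)
    (hsub : ∀ i, ∀ F ∈ 𝒜 i, T ⊆ F) :
    ∃ X : Fin r → Finset (Fin n), (∀ i j, i ≠ j → Disjoint (X i) (X j)) ∧
      (∀ x, x ∉ T ↔ ∃ i, x ∈ X i) ∧ (∀ i, 𝒜 i ⊆ sd n k T (X i)) ∧ ∀ i, #(X i) ≤ n - k := by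
  classical
  set X' : Fin r → Finset (Fin n) := fun i => univ.filter fun x => x ∉ T ∧ ∀ F ∈ 𝒜 i, x ∉ F with hX'
  have mX' : ∀ i x, x ∈ X' i ↔ x ∉ T ∧ ∀ F ∈ 𝒜 i, x ∉ F := fun i x => by simp [hX']
  set X : Fin r → Finset (Fin n) := fun i => (X' i).filter fun x => ∀ j, j < i → x ∉ X' j with hX
  have mX : ∀ i x, x ∈ X i ↔ x ∈ X' i ∧ ∀ j, j < i → x ∉ X' j := fun i x => by
    rw [hX, mem_filter]
  have hdis : ∀ i F, F ∈ 𝒜 i → Disjoint F (X i) := by
    intro i F hF
    rw [disjoint_left]
    intro y hy hy'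
    exact ((mX' i y).mp ((mX i y).mp hy').1).2 F hF hy
  refine ⟨X, ?_, ?_, ?_, ?_⟩
  · intro i j hij
    rw [disjoint_left]
    intro x hi hj
    rw [mX] at hi hj
    rcases lt_or_gt_of_ne hij with hlt | hlt
    · exact hj.2 i hlt hi.1
    · exact hi.2 j hlt hj.1
  · intro x
    constructor
    · intro hx
      have h1 : ∃ i, x ∈ X' i := by
        by_contra hcon
        push Not at hcon
        have h2 : ∀ i, ∃ F ∈ 𝒜 i, x ∈ F := by
          intro i
          have h3 := hcon i
          rw [mX'] at h3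
          by_contra h4
          push Not at h4
          exact h3 ⟨hx, h4⟩
        choose A hA hxA using h2
        have h3 := h.cross A hA
        have h4 : insert x T ⊆ common A := by
          intro y hy
          rw [mem_common]
          intro i
          rcases mem_insert.mp hy with h5 | h5
          · rw [h5]
            exact hxA i
          · exact hsub i (A i) (hA i) h5
        have h5 := card_le_card h4
        rw [card_insert_of_notMem hx, hT] at h5
        rw [mem_Ico] at h3
        omega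
      obtain ⟨i, hi⟩ := h1
      have hne : (univ.filter fun i => x ∈ X' i).Nonempty := ⟨i, by simpa using hi⟩
      refine ⟨(univ.filter fun i => x ∈ X' i).min' hne, ?_⟩
      rw [mX]
      refine ⟨by simpa using min'_mem _ hne, fun j hj hjx => ?_⟩
      exact absurd (min'_le (univ.filter fun i => x ∈ X' i) j (by simpa using hjx)) (not_le.mpr hj)
    · rintro ⟨i, hi⟩
      exact ((mX' i x).mp ((mX i x).mp hi).1).1
  · intro i F hF
    rw [mem_sd]
    exact ⟨h.sub i F hF, hsub i F hF, hdis i F hF⟩
  · intro i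
    obtain ⟨F, hF⟩ := h.ne i
    have h1 : X i ⊆ Fᶜ := by
      intro y hy
      rw [mem_compl]
      intro hy'
      exact (disjoint_left.mp (hdis i F hF)) hy' hy
    have h2 := card_le_card h1
    rw [card_compl, Fintype.card_fin, h.sub i F hF] at h2
    exact h2

end CrossR
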