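import Pool.Agent.Lib.MP_7592f8R.A
import Pool.Agent.Lib.MP_7592f8R.F3
import Pool.Agent.Lib.MP_7592f8R.H1

/-! # leaf H2: the upper bound and the case of equality -/

set_option autoImplicit false

namespace CrossR
open Finset Cross7592

theorem le_valC {n k r t : ℕ} {𝒜 : Fin r → Finset (Finset (Fin n))} (htk : t + 2 ≤ k)
    (hkn : k < n) (hr : n < r)
    (h : Adm n k r (Ico t (t + 1)) 𝒜) {T : Finset (Fin n)} (hT : #T = t)
    (hsub : ∀ i, ∀ F ∈ 𝒜 i, T ⊆ F) :
    total 𝒜 ≤ valC n k r t ∧ (total 𝒜 = valC n k r t → TypeC n k r t 𝒜) := by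
  classical
  obtain ⟨X, hdisj, hcov, hA, hX⟩ := exists_X h hT hsub
  have hTX : ∀ i, Disjoint T (X i) := by
    intro i
    rw [Finset.disjoint_left]
    intro x hxT hxX
    exact ((hcov x).2 ⟨i, hxX⟩) hxT
  have hsd : ∀ i, #(sd n k T (X i)) = (n - t - #(X i)).choose (k - t) := by
    intro i
    rw [card_sd T (X i) (hTX i) (by omega), hT]
  have hsum : ∑ i, #(X i) = n - t := by
    have h1 : #(Finset.univ.biUnion X) = ∑ i, #(X i) :=
      Finset.card_biUnion fun i _ j _ hij => hdisj i j hij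
    have h2 : Finset.univ.biUnion X = Tᶜ := by
      ext x
      rw [Finset.mem_biUnion, Finset.mem_compl, hcov x]
      constructor
      · rintro ⟨i, _, hi⟩
        exact ⟨i, hi⟩
      · rintro ⟨i, hi⟩
        exact ⟨i, Finset.mem_univ _, hi⟩
    rw [← h1, h2, Finset.card_compl, Fintype.card_fin, hT]
  have hr' : (n - t) / (n - k) < r := by
    have h1 := Nat.div_le_self (n - t) (n - k)
    omega
  obtain ⟨hb, heq⟩ := sum_le (n - t) (k - t) (n - k) r (by omega) (by omega) (by omega) hr'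
    (fun i => #(X i)) hX hsum
  have hle : ∀ i ∈ (Finset.univ : Finset (Fin r)), #(𝒜 i) ≤ (n - t - #(X i)).choose (k - t) := by
    intro i _
    rw [← hsd i]
    exact Finset.card_le_card (hA i)
  have hsum2 : ∑ i, #(𝒜 i) ≤ ∑ i, (n - t - #(X i)).choose (k - t) := Finset.sum_le_sum hle
  have hval : valC n k r t = (n - t) / (n - k) + (n - t - (n - t) % (n - k)).choose (k - t) +
      (r - (n - t) / (n - k) - 1) * (n - t).choose (k - t) := rfl
  refine ⟨?_, ?_⟩
  · rw [hval]
    exact hsum2.trans hb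
  · intro ht
    have ht' : ∑ i, #(𝒜 i) = (n - t) / (n - k) + (n - t - (n - t) % (n - k)).choose (k - t) +
      (r - (n - t) / (n - k) - 1) * (n - t).choose (k - t) := by
      rw [← hval, ← ht]
      rfl
    have h3 : ∑ i, #(𝒜 i) = ∑ i, (n - t - #(X i)).choose (k - t) :=
      le_antisymm hsum2 (by rw [ht']; exact hb)
    have h4 := (Finset.sum_eq_sum_iff_of_le hle).1 h3
    have h5 : ∀ i, 𝒜 i = sd n k T (X i) := by
      intro i
      refine Finset.eq_of_subset_of_card_le (hA i) ?_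
      rw [hsd i]
      exact (h4 i (Finset.mem_univ i)).ge
    obtain ⟨i₀, hi₀⟩ := heq (by rw [← h3, ht'])
    refine ⟨T, X, i₀, hT, hdisj, hcov, hi₀, hX i₀, ?_⟩
    intro i F
    rw [h5 i, mem_sd]

end CrossR
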