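import Pool.Agent.Lib.MP_7592f8R.C2
import Pool.Agent.Lib.MP_7592f8R.D2
import Pool.Agent.Lib.MP_7592f8R.E
import Pool.Agent.Lib.MP_7592f8R.G1
import Pool.Agent.Lib.MP_7592f8R.G3
import Pool.Agent.Lib.MP_7592f8R.H2

/-!
# MP_7592f8_co: many families (helper97): the main theorem
-/

namespace Cross7592
open Finset CrossR

theorem totals_bdd (n k r : ℕ) (L : Finset ℕ) : BddAbove (totals n k r L) := by
  refine ⟨r * 2 ^ (2 ^ n), ?_⟩
  rintro s ⟨𝒜, -, rfl⟩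
  have h1 : ∀ i ∈ (univ : Finset (Fin r)), #(𝒜 i) ≤ 2 ^ (2 ^ n) := fun i _ => by
    have h2 : #(𝒜 i) ≤ Fintype.card (Finset (Fin n)) := card_le_univ _
    rw [Fintype.card_finset, Fintype.card_fin] at h2
    exact h2.trans (Nat.lt_two_pow_self).le
  have h3 := sum_le_card_nsmul univ (fun i => #(𝒜 i)) _ h1
  simpa [total] using h3

theorem exists_greatest {n k r : ℕ} {L : Finset ℕ} (hne : (totals n k r L).Nonempty) :
    ∃ m, IsGreatest (totals n k r L) m :=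
  ⟨_, Nat.sSup_mem hne (totals_bdd n k r L), fun _ hs => le_csSup (totals_bdd n k r L) hs⟩

/-- If `L` is not an interval, its first run ends before `k`. -/
theorem run_le {k t j : ℕ} {L : Finset ℕ} (hk : ∀ l ∈ L, l ≤ k) (hL : ∀ a b : ℕ, L ≠ Icc a b)
    (ht : IsLeast (L : Set ℕ) t) (hj : IsLeast {i : ℕ | t + i ∉ L} j) :
    1 ≤ j ∧ t + j < k := by
  have h1 : 1 ≤ j := by
    rcases Nat.eq_zero_or_pos j with h | h
    · have := hj.1
      rw [h] at this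
      exact absurd ht.1 (by simpa using this)
    · exact h
  refine ⟨h1, ?_⟩
  by_contra hc
  push_neg at hc
  apply hL t (t + j - 1)
  ext l
  rw [mem_Icc]
  constructor
  · intro hl
    refine ⟨ht.2 hl, ?_⟩
    have h2 := hk l hl
    have h3 : l ≠ t + j := fun h => hj.1 (h ▸ hl)
    omega
  · rintro ⟨h2, h3⟩
    by_contra h4
    have h5 : j ≤ l - t := hj.2 (show t + (l - t) ∉ L by rwa [Nat.add_sub_cancel' h2])
    omega

theorem adm_mono {n k r : ℕ} {L L' : Finset ℕ} (hLL : L ⊆ L')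
    {𝒜 : Fin r → Finset (Finset (Fin n))} (h : Adm n k r L 𝒜) : Adm n k r L' 𝒜 :=
  ⟨h.sub, h.ne, fun A hA => hLL (h.cross A hA)⟩

theorem mainR (n k r : ℕ) (hkn : k < n) (hr : (n + 1) ^ 2 * (n.choose k + 1) ≤ r) (L : Finset ℕ)
    (hk : ∀ l ∈ L, l ≤ k) (hL : ∀ a b : ℕ, L ≠ Icc a b) (t j : ℕ) (ht : IsLeast (L : Set ℕ) t)
    (hj : IsLeast {i : ℕ | t + i ∉ L} j) :
    ∃ m : ℕ, IsGreatest (totals n k r L) m ∧ IsGreatest (totals n k r (Ico t (t + j))) m ∧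
      (∀ 𝒜 : Fin r → Finset (Finset (Fin n)),
        (Adm n k r L 𝒜 ∧ total 𝒜 = m) ↔ (Adm n k r (Ico t (t + j)) 𝒜 ∧ total 𝒜 = m)) ∧
      (j = 1 → m = valC n k r t ∧ ∀ 𝒜 : Fin r → Finset (Finset (Fin n)),
        (Adm n k r L 𝒜 ∧ total 𝒜 = m) ↔ TypeC n k r t 𝒜) := by
  obtain ⟨hj1, hjk⟩ := run_le hk hL ht hj
  have hnr : n < r := by nlinarith [Nat.zero_le (n.choose k)]
  have htl : ∀ l ∈ L, t ≤ l := fun l hl => ht.2 hl
  have hIL : Ico t (t + j) ⊆ L := by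
    intro l hl
    rw [mem_Ico] at hl
    by_contra h4
    have h5 : j ≤ l - t := hj.2 (show t + (l - t) ∉ L by rwa [Nat.add_sub_cancel' hl.1])
    omega
  obtain ⟨𝒜₀, hA0, hA0'⟩ := exists_low n k r t j hkn (by omega) hj1 hnr.le
  obtain ⟨m, hm⟩ := exists_greatest (n := n) (k := k) (r := r) (L := L)
    ⟨_, 𝒜₀, adm_mono hIL hA0, rfl⟩
  have hlow : (r - n) * (n - t).choose (k - t) ≤ m :=
    hA0'.trans (hm.2 ⟨𝒜₀, adm_mono hIL hA0, rfl⟩)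
  have key : ∀ 𝒜 : Fin r → Finset (Finset (Fin n)), Adm n k r L 𝒜 → total 𝒜 = m →
      ∃ T : Finset (Fin n), #T = t ∧ (∀ i, ∀ F ∈ 𝒜 i, T ⊆ F) ∧
        Adm n k r (Ico t (t + j)) 𝒜 := by
    intro 𝒜 hA hm'
    obtain ⟨T, hT, hE⟩ := exists_star hA htl (by omega) hkn hr (by rw [hm']; exact hlow)
    have hs := all_sub hA htl (by omega) hkn hT hE
    exact ⟨T, hT, hs, adm_Ico hA htl hj.1 (by omega) hkn hT hE hs⟩
  obtain ⟨𝒜₁, h1, h1'⟩ := hm.1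
  refine ⟨m, hm, ⟨?_, ?_⟩, ?_, ?_⟩
  · obtain ⟨T, -, -, h2⟩ := key 𝒜₁ h1 h1'.symm
    exact ⟨𝒜₁, h2, h1'⟩
  · rintro s ⟨𝒜, hA, rfl⟩
    exact hm.2 ⟨𝒜, adm_mono hIL hA, rfl⟩
  · intro 𝒜
    constructor
    · rintro ⟨h2, h3⟩
      obtain ⟨T, -, -, h4⟩ := key 𝒜 h2 h3
      exact ⟨h4, h3⟩
    · rintro ⟨h2, h3⟩
      exact ⟨adm_mono hIL h2, h3⟩
  · rintro rfl
    have hup : ∀ 𝒜 : Fin r → Finset (Finset (Fin n)), Adm n k r L 𝒜 → total 𝒜 = m →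
        total 𝒜 ≤ valC n k r t ∧ (total 𝒜 = valC n k r t → TypeC n k r t 𝒜) := by
      intro 𝒜 hA hm'
      obtain ⟨T, hT, hs, h4⟩ := key 𝒜 hA hm'
      exact le_valC (by omega) hkn hnr h4 hT hs
    have hge : valC n k r t ≤ m := by
      obtain ⟨𝒜, hC⟩ := exists_typeC n k r t (by omega) hkn hnr
      rw [← typeC_total (by omega) hkn hnr hC]
      exact hm.2 ⟨𝒜, typeC_adm ht.1 (by omega) hkn hC, rfl⟩
    have hle : m ≤ valC n k r t := by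
      rw [h1']
      exact (hup 𝒜₁ h1 h1'.symm).1
    have hmv : m = valC n k r t := le_antisymm hle hge
    refine ⟨hmv, fun 𝒜 => ⟨?_, ?_⟩⟩
    · rintro ⟨h2, h3⟩
      exact (hup 𝒜 h2 h3).2 (h3.trans hmv)
    · intro h2
      exact ⟨typeC_adm ht.1 (by omega) hkn h2, (typeC_total (by omega) hkn hnr h2).trans hmv.symm⟩

end Cross7592
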